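import Mathlib

/-!
# A toric Bayesian network whose non-sink subgraph is not perfect
-/

namespace Pool.Agent.Results.MP_52d0c2_ag.Collider

open MvPolynomial

/-- A Bayesian network on the vertices `Fin n`: a directed graph all of whose edges go from a
smaller to a larger vertex, and a number `κ i ≥ 2` of states for every vertex `i`. -/
structure BayesNet (n : ℕ) where
  /-- `edge i j` : there is an edge `i → j` -/
  edge : Fin n → Fin n → Prop
  /-- edges go from smaller to larger vertices -/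
  lt_of_edge : ∀ i j, edge i j → i < j
  /-- number of states -/
  κ : Fin n → ℕ
  /-- every variable has at least two states -/
  two_le : ∀ i, 2 ≤ κ i

variable {n : ℕ}

/-- Joint states of all the variables. -/
abbrev BayesNet.State (G : BayesNet n) : Type := ∀ i : Fin n, Fin (G.κ i)

/-- Parent configurations of the vertex `j`. -/
abbrev BayesNet.PaConfig (G : BayesNet n) (j : Fin n) : Type :=
  ∀ i : {i : Fin n // G.edge i j}, Fin (G.κ i)

/-- The parameters: `some ⟨j, k, a⟩` is `θ_{j,k,a}`, and `none` is `z`. -/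
abbrev BayesNet.Param (G : BayesNet n) : Type :=
  Option (Σ j : Fin n, Fin (G.κ j) × G.PaConfig j)

/-- The ideal `J` generated by all `∑_k θ_{j,k,a} - z`. -/
noncomputable def BayesNet.J (G : BayesNet n) : Ideal (MvPolynomial G.Param ℝ) :=
  Ideal.span (Set.range fun ja : (Σ j : Fin n, G.PaConfig j) =>
    (∑ k : Fin (G.κ ja.1), X (some ⟨ja.1, k, ja.2⟩)) - X none)

/-- The homomorphism `x_u ↦ ∏_j θ_{j, u_j, u_{Pa(j)}}` to the quotient by `J`. -/
noncomputable def BayesNet.phi (G : BayesNet n) :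
    MvPolynomial G.State ℝ →ₐ[ℝ] MvPolynomial G.Param ℝ ⧸ G.J :=
  aeval fun u => Ideal.Quotient.mk G.J (∏ j, X (some ⟨j, u j, fun i => u i⟩))

/-- The ideal `P_G`, the kernel of `phi`. -/
noncomputable def BayesNet.P (G : BayesNet n) : Ideal (MvPolynomial G.State ℝ) :=
  RingHom.ker G.phi

/-- A toric ideal in the strictest sense: a prime ideal generated by pure differences
`x^α - x^β` of two monomials. -/
def IsToricIdeal {σ : Type} (I : Ideal (MvPolynomial σ ℝ)) : Prop :=
  I.IsPrime ∧ ∃ B : Set (MvPolynomial σ ℝ),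
    (∀ b ∈ B, ∃ α β : σ →₀ ℕ, b = monomial α 1 - monomial β 1) ∧ I = Ideal.span B

/-- `G` is toric: `P_G` becomes toric after an invertible linear change of variables, i.e. an
automorphism of the polynomial ring sending every variable to a linear form. -/
def BayesNet.IsToric (G : BayesNet n) : Prop :=
  ∃ f : MvPolynomial G.State ℝ ≃ₐ[ℝ] MvPolynomial G.State ℝ,
    (∀ u, (f (X u)).IsHomogeneous 1) ∧ IsToricIdeal (G.P.map f)

/-- A sink: a vertex with no children. -/
def BayesNet.IsSink (G : BayesNet n) (i : Fin n) : Prop := ∀ j, ¬ G.edge i j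

/-- The subgraph induced on the vertices which are not sinks is perfect: for every non-sink
vertex `k` any two different non-sink parents of `k` are adjacent. -/
def BayesNet.NonSinkPerfect (G : BayesNet n) : Prop :=
  ∀ i j k : Fin n, ¬ G.IsSink i → ¬ G.IsSink j → ¬ G.IsSink k → i ≠ j →
    G.edge i k → G.edge j k → (G.edge i j ∨ G.edge j i)

/-! ### The network: four binary variables, all edges `i → j`, `i < j`, except `0 → 1`. -/

/-- The network. -/
abbrev net : BayesNet 4 where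
  edge i j := i < j ∧ ¬ (i = 0 ∧ j = 1)
  lt_of_edge _ _ h := h.1
  κ _ := 2
  two_le _ := le_rfl

/-- The state set. -/
abbrev S : Type := Fin 4 → Fin 2

/-- the top states: those with `u 2 = u 3 = 1` -/
def Top (u : S) : Prop := u 2 = 1 ∧ u 3 = 1

instance (u : S) : Decidable (Top u) := inferInstanceAs (Decidable (_ ∧ _))

/-- linear change of variables, first direction -/
noncomputable def fwd (u : S) : MvPolynomial S ℝ :=
  if Top u then X u - (X ![u 0, u 1, 0, 0] + X ![u 0, u 1, 0, 1] + X ![u 0, u 1, 1, 0]) else X u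

/-- linear change of variables, other direction -/
noncomputable def bwd (u : S) : MvPolynomial S ℝ :=
  if Top u then X u + (X ![u 0, u 1, 0, 0] + X ![u 0, u 1, 0, 1] + X ![u 0, u 1, 1, 0]) else X u

lemma not_top1 (i j : Fin 2) : ¬ Top ![i, j, 0, 0] := by simp [Top]
lemma not_top2 (i j : Fin 2) : ¬ Top ![i, j, 0, 1] := by simp [Top]
lemma not_top3 (i j : Fin 2) : ¬ Top ![i, j, 1, 0] := by simp [Top]
lemma top4 (i j : Fin 2) : Top ![i, j, 1, 1] := by simp [Top]

lemma fwd_bwd (u : S) : aeval fwd (bwd u) = (X u : MvPolynomial S ℝ) := by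
  unfold bwd
  split_ifs with h
  · simp only [map_add, aeval_X]
    rw [fwd, if_pos h, fwd, if_neg (not_top1 _ _), fwd, if_neg (not_top2 _ _), fwd,
      if_neg (not_top3 _ _)]
    ring
  · simp only [aeval_X]
    rw [fwd, if_neg h]

lemma bwd_fwd (u : S) : aeval bwd (fwd u) = (X u : MvPolynomial S ℝ) := by
  unfold fwd
  split_ifs with h
  · simp only [map_add, map_sub, aeval_X]
    rw [bwd, if_pos h, bwd, if_neg (not_top1 _ _), bwd, if_neg (not_top2 _ _), bwd,
      if_neg (not_top3 _ _)]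
    ring
  · simp only [aeval_X]
    rw [bwd, if_neg h]

/-- the linear change of variables -/
noncomputable def f : MvPolynomial S ℝ ≃ₐ[ℝ] MvPolynomial S ℝ :=
  AlgEquiv.ofAlgHom (aeval fwd) (aeval bwd)
    (MvPolynomial.algHom_ext fun u => by
      rw [AlgHom.comp_apply, aeval_X, fwd_bwd, AlgHom.id_apply])
    (MvPolynomial.algHom_ext fun u => by
      rw [AlgHom.comp_apply, aeval_X, bwd_fwd, AlgHom.id_apply])

lemma f_X (u : S) : f (X u) = fwd u := by simp [f]
lemma f_symm_apply (p : MvPolynomial S ℝ) : f.symm p = aeval bwd p := by simp [f]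

lemma fwd_hom (u : S) : (fwd u).IsHomogeneous 1 := by
  unfold fwd
  split_ifs
  · exact (isHomogeneous_X _ _).sub
      (((isHomogeneous_X _ _).add (isHomogeneous_X _ _)).add (isHomogeneous_X _ _))
  · exact isHomogeneous_X _ _

/-- the generator, after the change of variables -/
noncomputable def q : MvPolynomial S ℝ :=
  X ![0, 0, 1, 1] * X ![1, 1, 1, 1] - X ![0, 1, 1, 1] * X ![1, 0, 1, 1]

/-! ### Reduction modulo `q` -/

lemma pow_sub_pow_mem (m : ℕ) :
    ((X ![0, 0, 1, 1] * X ![1, 1, 1, 1]) ^ m - (X ![0, 1, 1, 1] * X ![1, 0, 1, 1]) ^ m :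
      MvPolynomial S ℝ) ∈ Ideal.span {q} := by
  rw [Ideal.mem_span_singleton]
  exact sub_dvd_pow_sub_pow _ _ m

/-- normalised exponents -/
def Nrm (e : S →₀ ℕ) : Prop := e ![0, 0, 1, 1] = 0 ∨ e ![1, 1, 1, 1] = 0

lemma exists_nrm (e : S →₀ ℕ) : ∃ e' : S →₀ ℕ, Nrm e' ∧
    ∀ c : ℝ, (monomial e c - monomial e' c : MvPolynomial S ℝ) ∈ Ideal.span {q} := by
  classical
  set m := min (e ![0, 0, 1, 1]) (e ![1, 1, 1, 1]) with hm
  set d : S →₀ ℕ := Finsupp.single ![0, 0, 1, 1] m + Finsupp.single ![1, 1, 1, 1] m with hd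
  set d' : S →₀ ℕ := Finsupp.single ![0, 1, 1, 1] m + Finsupp.single ![1, 0, 1, 1] m with hd'
  have h1 : (![0, 0, 1, 1] : S) ≠ ![1, 1, 1, 1] := by decide
  have h2 : (![0, 0, 1, 1] : S) ≠ ![0, 1, 1, 1] := by decide
  have h3 : (![0, 0, 1, 1] : S) ≠ ![1, 0, 1, 1] := by decide
  have h4 : (![1, 1, 1, 1] : S) ≠ ![0, 1, 1, 1] := by decide
  have h5 : (![1, 1, 1, 1] : S) ≠ ![1, 0, 1, 1] := by decide
  have hle : d ≤ e := by
    intro u
    by_cases hu : u = ![0, 0, 1, 1]
    · subst hu
      simp [hd, hm]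
    · by_cases hu' : u = ![1, 1, 1, 1]
      · subst hu'
        simp [hd, hm]
      · simp [hd, Ne.symm hu, Ne.symm hu']
  refine ⟨e - d + d', ?_, ?_⟩
  · unfold Nrm
    simp only [Finsupp.add_apply, Finsupp.tsub_apply, hd, hd', Finsupp.single_apply, h1, h2.symm,
      h3.symm, h4.symm, h5.symm, h1.symm, if_true, if_false]
    rcases le_total (e ![0, 0, 1, 1]) (e ![1, 1, 1, 1]) with h | h
    · left; rw [hm, min_eq_left h]; simp
    · right; rw [hm, min_eq_right h]; simp
  · intro c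
    have he : monomial e c = (monomial (e - d) c : MvPolynomial S ℝ) *
        (X ![0, 0, 1, 1] * X ![1, 1, 1, 1]) ^ m := by
      rw [mul_pow, X_pow_eq_monomial, X_pow_eq_monomial, monomial_mul, monomial_mul, one_mul,
        mul_one, ← hd, tsub_add_cancel_of_le hle]
    have he' : monomial (e - d + d') c = (monomial (e - d) c : MvPolynomial S ℝ) *
        (X ![0, 1, 1, 1] * X ![1, 0, 1, 1]) ^ m := by
      rw [mul_pow, X_pow_eq_monomial, X_pow_eq_monomial, monomial_mul, monomial_mul, one_mul,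
        mul_one, ← hd']
    rw [he, he', ← mul_sub]
    exact Ideal.mul_mem_left _ _ (pow_sub_pow_mem m)

lemma exists_normal_form (p : MvPolynomial S ℝ) : ∃ p' : MvPolynomial S ℝ,
    (∀ e ∈ p'.support, Nrm e) ∧ p - p' ∈ Ideal.span {q} := by
  classical
  choose N hN hN' using exists_nrm
  refine ⟨∑ e ∈ p.support, monomial (N e) (coeff e p), ?_, ?_⟩
  · intro e he
    have := MvPolynomial.support_sum he
    rw [Finset.mem_biUnion] at this
    obtain ⟨a, -, ha⟩ := this
    have := support_monomial_subset ha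
    rw [Finset.mem_singleton] at this
    rw [this]
    exact hN a
  · nth_rewrite 1 [p.as_sum]
    rw [← Finset.sum_sub_distrib]
    exact Ideal.sum_mem _ fun e _ => hN' e _

/-! ### The parametrisation `ρ` of the quadric cone -/

/-- the target variables -/
abbrev V : Type := (Fin 2 ⊕ Fin 2) ⊕ S

/-- `ρ` -/
noncomputable def rho : MvPolynomial S ℝ →ₐ[ℝ] MvPolynomial V ℝ :=
  aeval fun u => if Top u then X (Sum.inl (Sum.inl (u 0))) * X (Sum.inl (Sum.inr (u 1)))
    else X (Sum.inr u)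

lemma rho_q : rho q = 0 := by
  simp only [rho, q, map_sub, map_mul, aeval_X, top4, if_true]
  simp
  ring

/-- the exponent map of `ρ` -/
noncomputable def L1 (u : S) : V →₀ ℕ :=
  if Top u then Finsupp.single (Sum.inl (Sum.inl (u 0))) 1 + Finsupp.single (Sum.inl (Sum.inr (u 1))) 1
    else Finsupp.single (Sum.inr u) 1

/-- the exponent map of `ρ` -/
noncomputable def L (e : S →₀ ℕ) : V →₀ ℕ := ∑ u, e u • L1 u

lemma rho_X (u : S) : rho (X u) = monomial (L1 u) 1 := by
  rw [rho, aeval_X, L1]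
  split_ifs
  · rw [X, X, monomial_mul, one_mul]
  · rfl

lemma rho_monomial (e : S →₀ ℕ) (c : ℝ) : rho (monomial e c) = monomial (L e) c := by
  rw [monomial_eq, map_mul, Finsupp.prod_fintype _ _ (fun _ => pow_zero _), map_prod]
  simp only [map_pow, rho_X, monomial_pow, one_pow]
  rw [← MvPolynomial.algebraMap_eq, AlgHom.commutes, MvPolynomial.algebraMap_eq, ← monomial_sum_one,
    C_mul_monomial, mul_one, L]

lemma sum_state (g : S → ℕ) (P : S → Prop) [DecidablePred P] (h : ∀ u, ¬ P u → g u = 0) :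
    ∑ u, g u = ∑ u ∈ Finset.univ.filter P, g u := by
  rw [Finset.sum_filter]
  refine Finset.sum_congr rfl fun u _ => ?_
  split_ifs with hu
  · rfl
  · exact h u hu

lemma L_apply (e : S →₀ ℕ) (v : V) : L e v = ∑ u, e u * L1 u v := by
  rw [L, Finsupp.finsetSum_apply]
  simp

lemma L_inr (e : S →₀ ℕ) (w : S) (hw : ¬ Top w) : L e (Sum.inr w) = e w := by
  rw [L_apply, Finset.sum_eq_single w]
  · simp [L1, hw]
  · intro u _ hu
    unfold L1
    split_ifs with h
    · simp
    · simp [hu]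
  · simp

lemma L_alpha (e : S →₀ ℕ) (i : Fin 2) :
    L e (Sum.inl (Sum.inl i)) = e ![i, 0, 1, 1] + e ![i, 1, 1, 1] := by
  rw [L_apply, sum_state _ (fun u => u = ![i, 0, 1, 1] ∨ u = ![i, 1, 1, 1])]
  · have : (Finset.univ.filter fun u : S => u = ![i, 0, 1, 1] ∨ u = ![i, 1, 1, 1]) =
        {![i, 0, 1, 1], ![i, 1, 1, 1]} := by
      ext u; simp
    rw [this, Finset.sum_pair (by intro h; have := congrFun h 1; simp at this)]
    simp [L1, top4]
  · intro u hu
    unfold L1
    split_ifs with h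
    · by_cases hi : u 0 = i
      · exfalso
        apply hu
        have h1 : u 1 = 0 ∨ u 1 = 1 := by
          rcases u 1 with ⟨x, hx⟩
          interval_cases x <;> simp
        rcases h1 with h1 | h1
        · left; ext k; fin_cases k <;> simp [hi, h1, h.1, h.2]
        · right; ext k; fin_cases k <;> simp [hi, h1, h.1, h.2]
      · simp [hi]
    · simp

lemma L_beta (e : S →₀ ℕ) (j : Fin 2) :
    L e (Sum.inl (Sum.inr j)) = e ![0, j, 1, 1] + e ![1, j, 1, 1] := by
  rw [L_apply, sum_state _ (fun u => u = ![0, j, 1, 1] ∨ u = ![1, j, 1, 1])]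
  · have : (Finset.univ.filter fun u : S => u = ![0, j, 1, 1] ∨ u = ![1, j, 1, 1]) =
        {![0, j, 1, 1], ![1, j, 1, 1]} := by
      ext u; simp
    rw [this, Finset.sum_pair (by intro h; have := congrFun h 0; simp at this)]
    simp [L1, top4]
  · intro u hu
    unfold L1
    split_ifs with h
    · by_cases hi : u 1 = j
      · exfalso
        apply hu
        have h1 : u 0 = 0 ∨ u 0 = 1 := by
          rcases u 0 with ⟨x, hx⟩
          interval_cases x <;> simp
        rcases h1 with h1 | h1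
        · left; ext k; fin_cases k <;> simp [hi, h1, h.1, h.2]
        · right; ext k; fin_cases k <;> simp [hi, h1, h.1, h.2]
      · simp [hi]
    · simp

lemma L_inj {e e' : S →₀ ℕ} (he : Nrm e) (he' : Nrm e') (h : L e = L e') : e = e' := by
  have hA := fun i => DFunLike.congr_fun h (Sum.inl (Sum.inl i))
  have hB := fun i => DFunLike.congr_fun h (Sum.inl (Sum.inr i))
  have hW := fun w => DFunLike.congr_fun h (Sum.inr w)
  simp only [L_alpha] at hA
  simp only [L_beta] at hB
  have a0 := hA 0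
  have a1 := hA 1
  have b0 := hB 0
  have b1 := hB 1
  unfold Nrm at he he'
  ext u
  by_cases hu : Top u
  · have h0 : u 0 = 0 ∨ u 0 = 1 := by
      rcases u 0 with ⟨x, hx⟩
      interval_cases x <;> simp
    have h1 : u 1 = 0 ∨ u 1 = 1 := by
      rcases u 1 with ⟨x, hx⟩
      interval_cases x <;> simp
    have hu' : u = ![u 0, u 1, 1, 1] := by
      ext k; fin_cases k <;> simp [hu.1, hu.2]
    rw [hu']
    rcases h0 with h0 | h0 <;> rcases h1 with h1 | h1 <;> rw [h0, h1] <;> omega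
  · have := hW u
    rwa [L_inr _ _ hu, L_inr _ _ hu] at this

lemma ker_rho (p : MvPolynomial S ℝ) (hp : rho p = 0) : p ∈ Ideal.span {q} := by
  classical
  obtain ⟨p', hn, hm⟩ := exists_normal_form p
  have hq : ∀ x ∈ Ideal.span {q}, rho x = 0 := by
    intro x hx
    rw [Ideal.mem_span_singleton] at hx
    obtain ⟨y, rfl⟩ := hx
    rw [map_mul, rho_q, zero_mul]
  have h0 : rho p' = 0 := by
    have := hq _ hm
    rwa [map_sub, hp, zero_sub, neg_eq_zero] at this
  have h1 : p' = 0 := by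
    ext e
    rw [coeff_zero]
    by_contra hne
    have he : e ∈ p'.support := mem_support_iff.mpr hne
    have h2 := congrArg (coeff (L e)) h0
    rw [p'.as_sum, map_sum, coeff_sum, coeff_zero] at h2
    simp only [rho_monomial, coeff_monomial] at h2
    rw [Finset.sum_eq_single e] at h2
    · rw [if_pos rfl] at h2
      exact hne h2
    · intro e' he' hne'
      rw [if_neg]
      intro h
      exact hne' (L_inj (hn _ he') (hn _ he) h)
    · intro h; exact absurd he h
  rw [h1, sub_zero] at hm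
  exact hm

lemma mem_span_q (p : MvPolynomial S ℝ) : p ∈ Ideal.span {q} ↔ rho p = 0 := by
  refine ⟨fun hx => ?_, ker_rho p⟩
  rw [Ideal.mem_span_singleton] at hx
  obtain ⟨y, rfl⟩ := hx
  rw [map_mul, rho_q, zero_mul]

lemma span_q_toric : IsToricIdeal (Ideal.span {q}) := by
  constructor
  · have : Ideal.span {q} = RingHom.ker rho := by
      ext p
      rw [mem_span_q, RingHom.mem_ker]
    rw [this]
    exact RingHom.ker_isPrime _
  · refine ⟨{q}, ?_, rfl⟩
    intro b hb
    rw [Set.mem_singleton_iff] at hb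
    subst hb
    refine ⟨Finsupp.single ![0, 0, 1, 1] 1 + Finsupp.single ![1, 1, 1, 1] 1,
      Finsupp.single ![0, 1, 1, 1] 1 + Finsupp.single ![1, 0, 1, 1] 1, ?_⟩
    rw [q, X, X, X, X, monomial_mul, monomial_mul, one_mul]

/-! ### `q` lies in the transformed ideal -/

/-- The class of a parameter in the quotient. -/
noncomputable def cl (j : Fin 4) (k : Fin 2) (a : net.PaConfig j) :
    MvPolynomial net.Param ℝ ⧸ net.J :=
  Ideal.Quotient.mk net.J (X (some ⟨j, k, a⟩))

/-- The class of `z`. -/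
noncomputable def zc : MvPolynomial net.Param ℝ ⧸ net.J := Ideal.Quotient.mk net.J (X none)

lemma cl_add (j : Fin 4) (a : net.PaConfig j) : cl j 0 a + cl j 1 a = zc := by
  unfold cl zc
  rw [← map_add, ← sub_eq_zero, ← map_sub, Ideal.Quotient.eq_zero_iff_mem]
  refine Ideal.subset_span ⟨⟨j, a⟩, ?_⟩
  exact congrArg (fun t => t - X none)
    (Fin.sum_univ_two fun k : Fin 2 => (X (some ⟨j, k, a⟩) : MvPolynomial net.Param ℝ))

/-- `net.phi`, typed with `S`. -/
noncomputable def ph : MvPolynomial S ℝ →ₐ[ℝ] MvPolynomial net.Param ℝ ⧸ net.J :=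
  aeval fun u : S => Ideal.Quotient.mk net.J (∏ j : Fin 4, X (some ⟨j, u j, fun i => u i⟩))

lemma phi_X (u : S) : ph (X u) = cl 0 (u 0) (fun i => u i) * cl 1 (u 1) (fun i => u i) *
    cl 2 (u 2) (fun i => u i) * cl 3 (u 3) (fun i => u i) := by
  rw [ph, aeval_X, Fin.prod_univ_four, map_mul, map_mul, map_mul]
  rfl

lemma phi_X4 (i j k l : Fin 2) : ph (X ![i, j, k, l]) =
    cl 0 i (fun m => (![i, j, k, l] : S) m) * cl 1 j (fun m => (![i, j, k, l] : S) m) *
    cl 2 k (fun m => (![i, j, k, l] : S) m) * cl 3 l (fun m => (![i, j, k, l] : S) m) :=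
  phi_X _

lemma pa_congr (j : Fin 4) (u v : S) (h : ∀ m, net.edge m j → u m = v m) :
    (fun i : {i : Fin 4 // net.edge i j} => u i) = fun i : {i : Fin 4 // net.edge i j} => v i :=
  _root_.funext fun i => h i i.2

lemma phi_bwd (i j : Fin 2) : ph (bwd ![i, j, 1, 1]) =
    cl 0 i (fun _ => (0 : Fin 2)) * cl 1 j (fun _ => (0 : Fin 2)) * zc ^ 2 := by
  have hb : bwd ![i, j, 1, 1] =
      X ![i, j, 1, 1] + (X ![i, j, 0, 0] + X ![i, j, 0, 1] + X ![i, j, 1, 0]) := by
    rw [bwd, if_pos (top4 i j)]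
    rfl
  rw [hb]
  simp only [map_add, phi_X4]
  have e0 : ∀ k l : Fin 2, (fun m : {m : Fin 4 // net.edge m 0} => (![i, j, k, l] : S) m) =
      fun _ => (0 : Fin 2) := by
    intro k l
    funext m
    exact absurd m.2.1 (by simp)
  have e1 : ∀ k l : Fin 2, (fun m : {m : Fin 4 // net.edge m 1} => (![i, j, k, l] : S) m) =
      fun _ => (0 : Fin 2) := by
    intro k l
    funext m
    have h1 := m.2.1
    have h2 := m.2.2
    exfalso
    apply h2
    refine ⟨?_, rfl⟩
    have := Fin.lt_def.mp h1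
    ext
    simpa using this
  have e2 : ∀ k l : Fin 2, (fun m : {m : Fin 4 // net.edge m 2} => (![i, j, k, l] : S) m) =
      fun m : {m : Fin 4 // net.edge m 2} => (![i, j, 0, 0] : S) m := by
    intro k l
    refine pa_congr 2 _ _ fun m hm => ?_
    have h1 := Fin.lt_def.mp hm.1
    rcases m with ⟨m, hm'⟩
    interval_cases m <;> simp_all
  have e3 : ∀ k l : Fin 2, (fun m : {m : Fin 4 // net.edge m 3} => (![i, j, k, l] : S) m) =
      fun m : {m : Fin 4 // net.edge m 3} => (![i, j, k, 0] : S) m := by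
    intro k l
    refine pa_congr 3 _ _ fun m hm => ?_
    have h1 := Fin.lt_def.mp hm.1
    rcases m with ⟨m, hm'⟩
    interval_cases m <;> simp_all
  simp only [e0, e1]
  rw [e2 1 1, e2 0 1, e2 1 0, e3 1 1, e3 0 1]
  have h3 := cl_add 2 (fun m => (![i, j, 0, 0] : S) m)
  have h40 := cl_add 3 (fun m => (![i, j, 0, 0] : S) m)
  have h41 := cl_add 3 (fun m => (![i, j, 1, 0] : S) m)
  linear_combination (cl 0 i (fun _ => (0 : Fin 2)) * cl 1 j (fun _ => (0 : Fin 2))) *
    (cl 2 1 (fun m => (![i, j, 0, 0] : S) m) * h41 + cl 2 0 (fun m => (![i, j, 0, 0] : S) m) * h40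
      + zc * h3)

lemma phi_f_symm_q : ph (f.symm q) = 0 := by
  rw [f_symm_apply, q]
  simp only [map_sub, map_mul, aeval_X, phi_bwd]
  ring

lemma mem_map_iff (p : MvPolynomial S ℝ) : p ∈ (RingHom.ker ph).map f ↔ ph (f.symm p) = 0 := by
  rw [Ideal.mem_map_of_equiv]
  constructor
  · rintro ⟨x, hx, rfl⟩
    rw [AlgEquiv.symm_apply_apply]
    exact hx
  · intro h
    exact ⟨f.symm p, h, AlgEquiv.apply_symm_apply f p⟩

/-! ### Real parameters -/

lemma eval_eq_zero (θ : net.Param → ℝ) (hθ : ∀ (j : Fin 4) (a : net.PaConfig j),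
    θ (some ⟨j, (0 : Fin 2), a⟩) + θ (some ⟨j, (1 : Fin 2), a⟩) = θ none)
    (r : MvPolynomial S ℝ) (hr : ph r = 0) :
    eval (fun u : S => ∏ j, θ (some ⟨j, u j, fun i => u i⟩)) r = 0 := by
  have hJ0 : net.J ≤ RingHom.ker (eval θ) := by
    unfold BayesNet.J
    rw [Ideal.span_le]
    rintro _ ⟨⟨j, a⟩, rfl⟩
    have := hθ j a
    simp only [SetLike.mem_coe, RingHom.mem_ker, map_sub, map_sum, eval_X]
    rw [sub_eq_zero, ← this]
    exact Fin.sum_univ_two fun k : Fin 2 => θ (some ⟨j, k, a⟩)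
  have hJ : ∀ a ∈ net.J, eval θ a = 0 := fun a ha => RingHom.mem_ker.mp (hJ0 ha)
  have h1 : Ideal.Quotient.lift net.J (eval θ) hJ (ph r) = 0 := by
    rw [hr, map_zero]
  have h2 : (Ideal.Quotient.lift net.J (eval θ) hJ).comp
      (ph : MvPolynomial S ℝ →+* _) =
      eval (fun u : S => ∏ j, θ (some ⟨j, u j, fun i => u i⟩)) := by
    refine MvPolynomial.ringHom_ext ?_ ?_
    · intro c
      simp only [RingHom.comp_apply, RingHom.coe_coe, eval_C]
      rw [← MvPolynomial.algebraMap_eq, AlgHom.commutes]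
      have : algebraMap ℝ (MvPolynomial net.Param ℝ ⧸ net.J) c =
          Ideal.Quotient.mk net.J (C c) := rfl
      rw [this, Ideal.Quotient.lift_mk, eval_C]
    · intro u
      simp only [RingHom.comp_apply, RingHom.coe_coe, eval_X]
      rw [ph, aeval_X, Ideal.Quotient.lift_mk, map_prod]
      simp only [eval_X]
  rw [← h2]
  exact h1

/-- The point of the model with transformed coordinates `v`. -/
noncomputable def pt (v : V → ℝ) (u : S) : ℝ :=
  if Top u then v (Sum.inl (Sum.inl (u 0))) * v (Sum.inl (Sum.inr (u 1))) -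
    (v (Sum.inr ![u 0, u 1, 0, 0]) + v (Sum.inr ![u 0, u 1, 0, 1]) + v (Sum.inr ![u 0, u 1, 1, 0]))
  else v (Sum.inr u)

lemma eval_bwd (v : V → ℝ) (u : S) : eval (pt v) (bwd u) = eval v (rho (X u)) := by
  rw [rho, aeval_X]
  by_cases h : Top u
  · rw [bwd, if_pos h, if_pos h]
    simp only [map_add, map_mul, eval_X]
    rw [pt, if_pos h, pt, if_neg (not_top1 _ _), pt, if_neg (not_top2 _ _), pt,
      if_neg (not_top3 _ _)]
    ring
  · rw [bwd, if_neg h, if_neg h, eval_X, eval_X, pt, if_neg h]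

lemma eval_rho (v : V → ℝ) (p : MvPolynomial S ℝ) :
    eval v (rho p) = eval (pt v) (f.symm p) := by
  rw [f_symm_apply]
  have h : (eval v).comp (rho : MvPolynomial S ℝ →+* _) =
      (eval (pt v)).comp ((aeval bwd : MvPolynomial S ℝ →ₐ[ℝ] MvPolynomial S ℝ) : _ →+* _) := by
    refine MvPolynomial.ringHom_ext ?_ ?_
    · intro c
      simp only [RingHom.comp_apply, RingHom.coe_coe]
      rw [← MvPolynomial.algebraMap_eq, AlgHom.commutes, AlgHom.commutes,
        MvPolynomial.algebraMap_eq, MvPolynomial.algebraMap_eq, eval_C, eval_C]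
    · intro u
      simp only [RingHom.comp_apply, RingHom.coe_coe]
      rw [← eval_bwd, aeval_X]
  exact RingHom.congr_fun h p

/-- parameters for a positive point `x` -/
noncomputable def theta (z : ℝ) (α β : Fin 2 → ℝ) (x : S → ℝ) : net.Param → ℝ
  | none => z
  | some ⟨0, k, _⟩ => z * α k / (α 0 + α 1)
  | some ⟨1, k, _⟩ => z * β k / (β 0 + β 1)
  | some ⟨2, k, a⟩ =>
      let i : Fin 2 := a ⟨0, by decide, by decide⟩
      let j : Fin 2 := a ⟨1, by decide, by decide⟩
      z * (x ![i, j, k, 0] + x ![i, j, k, 1]) / (α i * β j)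
  | some ⟨3, l, a⟩ =>
      let i : Fin 2 := a ⟨0, by decide, by decide⟩
      let j : Fin 2 := a ⟨1, by decide, by decide⟩
      let k : Fin 2 := a ⟨2, by decide, by decide⟩
      z * x ![i, j, k, l] / (x ![i, j, k, 0] + x ![i, j, k, 1])

lemma theta_sum (z : ℝ) (α β : Fin 2 → ℝ) (x : S → ℝ) (hα : ∀ i, 0 < α i) (hβ : ∀ j, 0 < β j)
    (hx : ∀ u, 0 < x u)
    (hs : ∀ i j, x ![i, j, 0, 0] + x ![i, j, 0, 1] + (x ![i, j, 1, 0] + x ![i, j, 1, 1]) =
      α i * β j) (j : Fin 4) (a : net.PaConfig j) :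
    theta z α β x (some ⟨j, (0 : Fin 2), a⟩) + theta z α β x (some ⟨j, (1 : Fin 2), a⟩) =
      theta z α β x none := by
  have hα' : α 0 + α 1 ≠ 0 := (add_pos (hα 0) (hα 1)).ne'
  have hβ' : β 0 + β 1 ≠ 0 := (add_pos (hβ 0) (hβ 1)).ne'
  fin_cases j
  · change z * α 0 / (α 0 + α 1) + z * α 1 / (α 0 + α 1) = z
    field_simp
  · change z * β 0 / (β 0 + β 1) + z * β 1 / (β 0 + β 1) = z
    field_simp
  · change z * (x ![_, _, 0, 0] + x ![_, _, 0, 1]) / (α _ * β _) +
      z * (x ![_, _, 1, 0] + x ![_, _, 1, 1]) / (α _ * β _) = z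
    rw [← add_div, ← mul_add, hs, mul_div_assoc, div_self (mul_pos (hα _) (hβ _)).ne', mul_one]
  · change z * x ![_, _, _, 0] / (x ![_, _, _, 0] + x ![_, _, _, 1]) +
      z * x ![_, _, _, 1] / (x ![_, _, _, 0] + x ![_, _, _, 1]) = z
    rw [← add_div, ← mul_add, mul_div_assoc, div_self (add_pos (hx _) (hx _)).ne', mul_one]

lemma theta_prod (z : ℝ) (α β : Fin 2 → ℝ) (x : S → ℝ) (hα : ∀ i, 0 < α i) (hβ : ∀ j, 0 < β j)
    (hx : ∀ u, 0 < x u) (hz : z ^ 4 = (α 0 + α 1) * (β 0 + β 1)) (u : S) :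
    ∏ j : Fin 4, theta z α β x (some ⟨j, u j, fun i => u i⟩) = x u := by
  have hα' : α 0 + α 1 ≠ 0 := (add_pos (hα 0) (hα 1)).ne'
  have hβ' : β 0 + β 1 ≠ 0 := (add_pos (hβ 0) (hβ 1)).ne'
  rw [Fin.prod_univ_four]
  change z * α (u 0) / (α 0 + α 1) * (z * β (u 1) / (β 0 + β 1)) *
    (z * (x ![u 0, u 1, u 2, 0] + x ![u 0, u 1, u 2, 1]) / (α (u 0) * β (u 1))) *
    (z * x ![u 0, u 1, u 2, u 3] / (x ![u 0, u 1, u 2, 0] + x ![u 0, u 1, u 2, 1])) = x u
  have hu : ![u 0, u 1, u 2, u 3] = u := by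
    ext k; fin_cases k <;> rfl
  rw [hu]
  have h1 := (hα (u 0)).ne'
  have h2 := (hβ (u 1)).ne'
  have h3 := (add_pos (hx ![u 0, u 1, u 2, 0]) (hx ![u 0, u 1, u 2, 1])).ne'
  field_simp
  rw [hz]

lemma rho_eq_zero (p : MvPolynomial S ℝ) (hp : ph (f.symm p) = 0) : rho p = 0 := by
  let s : V → Set ℝ := Sum.elim (fun _ => Set.Ioo 1 2) (fun _ => Set.Ioo 0 (1 / 4))
  have hs : ∀ i, (s i).Infinite := by
    rintro (i | i)
    · exact Set.Ioo_infinite (by norm_num)
    · exact Set.Ioo_infinite (by norm_num)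
  refine funext_set s hs fun v hv => ?_
  rw [map_zero, eval_rho]
  have hv1 : ∀ i, v (Sum.inl i) ∈ Set.Ioo (1 : ℝ) 2 := fun i => hv (Sum.inl i) (Set.mem_univ _)
  have hv2 : ∀ u, v (Sum.inr u) ∈ Set.Ioo (0 : ℝ) (1 / 4) :=
    fun u => hv (Sum.inr u) (Set.mem_univ _)
  set α : Fin 2 → ℝ := fun i => v (Sum.inl (Sum.inl i)) with hαd
  set β : Fin 2 → ℝ := fun j => v (Sum.inl (Sum.inr j)) with hβd
  have hα1 : ∀ i, 1 < α i := fun i => (hv1 _).1
  have hβ1 : ∀ i, 1 < β i := fun i => (hv1 _).1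
  have hα : ∀ i, 0 < α i := fun i => lt_trans one_pos (hα1 i)
  have hβ : ∀ i, 0 < β i := fun i => lt_trans one_pos (hβ1 i)
  have hx : ∀ u, 0 < pt v u := by
    intro u
    unfold pt
    split_ifs with h
    · have h1 := (hv2 ![u 0, u 1, 0, 0]).2
      have h2 := (hv2 ![u 0, u 1, 0, 1]).2
      have h3 := (hv2 ![u 0, u 1, 1, 0]).2
      have h4 : 1 < α (u 0) * β (u 1) := by nlinarith [hα1 (u 0), hβ1 (u 1)]
      have h4' : 1 < v (Sum.inl (Sum.inl (u 0))) * v (Sum.inl (Sum.inr (u 1))) := h4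
      linarith
    · exact (hv2 _).1
  have hs' : ∀ i j, pt v ![i, j, 0, 0] + pt v ![i, j, 0, 1] + (pt v ![i, j, 1, 0] +
      pt v ![i, j, 1, 1]) = α i * β j := by
    intro i j
    rw [pt, if_neg (not_top1 _ _), pt, if_neg (not_top2 _ _), pt, if_neg (not_top3 _ _), pt,
      if_pos (top4 _ _)]
    simp only [hαd, hβd]
    simp only [Matrix.cons_val_zero, Matrix.cons_val_one]
    ring
  have ht : 0 < (α 0 + α 1) * (β 0 + β 1) :=
    mul_pos (add_pos (hα 0) (hα 1)) (add_pos (hβ 0) (hβ 1))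
  set z : ℝ := Real.sqrt (Real.sqrt ((α 0 + α 1) * (β 0 + β 1))) with hzd
  have hz : z ^ 4 = (α 0 + α 1) * (β 0 + β 1) := by
    have : z ^ 4 = (z ^ 2) ^ 2 := by ring
    rw [this, hzd, Real.sq_sqrt (Real.sqrt_nonneg _), Real.sq_sqrt ht.le]
  have h := eval_eq_zero (theta z α β (pt v)) (theta_sum z α β (pt v) hα hβ hx hs') (f.symm p) hp
  have hfun : (fun u : S => ∏ j, theta z α β (pt v) (some ⟨j, u j, fun i => u i⟩)) = pt v :=
    _root_.funext fun u => theta_prod z α β (pt v) hα hβ hx hz u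
  rw [hfun] at h
  exact h

lemma map_eq : (RingHom.ker ph).map f = Ideal.span {q} := by
  ext p
  rw [mem_map_iff]
  constructor
  · intro h
    exact (mem_span_q p).mpr (rho_eq_zero p h)
  · intro h
    rw [Ideal.mem_span_singleton] at h
    obtain ⟨y, rfl⟩ := h
    rw [map_mul, map_mul, phi_f_symm_q, zero_mul]

lemma net_toric : net.IsToric := by
  refine ⟨f, fun u => ?_, ?_⟩
  · have := fwd_hom u
    rw [← f_X] at this
    exact this
  · have h : IsToricIdeal ((RingHom.ker ph).map f) := by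
      rw [map_eq]; exact span_q_toric
    exact h

lemma net_not_perfect : ¬ net.NonSinkPerfect := by
  intro h
  have h' := h 0 1 2 (fun hs => hs 2 ⟨by decide, by decide⟩) (fun hs => hs 2 ⟨by decide, by decide⟩)
    (fun hs => hs 3 ⟨by decide, by decide⟩) (by decide) ⟨by decide, by decide⟩
    ⟨by decide, by decide⟩
  rcases h' with h' | h'
  · exact h'.2 ⟨rfl, rfl⟩
  · exact absurd h'.1 (by decide)

/-- **Negative answer to Q1**: there is a Bayesian network (four binary variables) such that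
`P_G` is toric after an invertible linear change of variables, while its non-sink subgraph is not
perfect. -/
theorem result : ∃ G : BayesNet 4, (∀ i, G.κ i = 2) ∧ G.IsToric ∧ ¬ G.NonSinkPerfect :=
  ⟨net, fun _ => rfl, net_toric, net_not_perfect⟩

end Pool.Agent.Results.MP_52d0c2_ag.Collider
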